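import Mathlib

/-!
Trivalent graphs with prescribed automorphism group on `|G| (2 d + 8)` vertices.
The graph is a covering of a ladder (rung `i` carries the voltage `s i`) closed by two
small caps; the positions are `0 .. 2D+5`.
-/

namespace Pool.Agent.Results.MP_b549f0_co.Cubic

/-- edges with trivial voltage -/
def TA (D p q : ℕ) : Prop :=
  (p = 0 ∧ q = 1) ∨ (p = 1 ∧ q = 2) ∨ (p = 0 ∧ q = 2) ∨ (p = 0 ∧ q = 3) ∨ (p = 1 ∧ q = 4) ∨
  (p = 3 ∧ q = 4) ∨ (p = 2 ∧ q = 6) ∨ (p = 3 ∧ q = 7) ∨ (p = 4 ∧ q = 5) ∨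
  (p = 5 ∧ q = 2 * D + 4) ∨ (p = 5 ∧ q = 2 * D + 5) ∨ (6 ≤ p ∧ q = p + 2)

/-- rungs -/
def RA (p q : ℕ) : Prop := 6 ≤ p ∧ p % 2 = 0 ∧ q = p + 1

/-- adjacency in the quotient graph -/
def QA (D p q : ℕ) : Prop := TA D p q ∨ TA D q p ∨ RA p q ∨ RA q p

variable {G : Type} [Group G]

/-- the covering graph -/
def X (D : ℕ) (hD : 4 ≤ D) (s : ℕ → G) : SimpleGraph (G × Fin (2 * D + 6)) where
  Adj x y := (y.1 = x.1 ∧ (TA D x.2 y.2 ∨ TA D y.2 x.2)) ∨
    (RA x.2 y.2 ∧ y.1 = x.1 * s x.2) ∨ (RA y.2 x.2 ∧ x.1 = y.1 * s y.2)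
  symm := ⟨by
    rintro x y (⟨h, h'⟩ | h | h)
    · exact Or.inl ⟨h.symm, h'.symm⟩
    · exact Or.inr (Or.inr h)
    · exact Or.inr (Or.inl h)⟩
  loopless := ⟨by
    rintro x (⟨_, h⟩ | ⟨h, _⟩ | ⟨h, _⟩)
    · unfold TA at h; omega
    · unfold RA at h; omega
    · unfold RA at h; omega⟩

variable {D : ℕ} {hD : 4 ≤ D} {s : ℕ → G}

theorem adj_q {x y : G × Fin (2 * D + 6)} (h : (X D hD s).Adj x y) : QA D x.2 y.2 := by
  rcases h with ⟨_, h | h⟩ | ⟨h, _⟩ | ⟨h, _⟩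
  · exact Or.inl h
  · exact Or.inr (Or.inl h)
  · exact Or.inr (Or.inr (Or.inl h))
  · exact Or.inr (Or.inr (Or.inr h))

theorem lift (x : G × Fin (2 * D + 6)) (q : Fin (2 * D + 6)) (h : QA D x.2 q) :
    ∃ g, (X D hD s).Adj x (g, q) := by
  rcases h with h | h | h | h
  · exact ⟨x.1, Or.inl ⟨rfl, Or.inl h⟩⟩
  · exact ⟨x.1, Or.inl ⟨rfl, Or.inr h⟩⟩
  · exact ⟨x.1 * s x.2, Or.inr (Or.inl ⟨h, rfl⟩)⟩
  · exact ⟨x.1 * (s q)⁻¹, Or.inr (Or.inr ⟨h, by simp⟩)⟩

theorem uniq {x y z : G × Fin (2 * D + 6)} (h : (X D hD s).Adj x y) (h' : (X D hD s).Adj x z)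
    (e : y.2 = z.2) : y = z := by
  have hD' := hD
  refine Prod.ext ?_ e
  rcases h with ⟨h1, h2⟩ | ⟨h2, h1⟩ | ⟨h2, h1⟩ <;>
  rcases h' with ⟨h3, h4⟩ | ⟨h4, h3⟩ | ⟨h4, h3⟩ <;> rw [← e] at h4
  · rw [h1, h3]
  · exfalso; unfold TA at h2; unfold RA at h4; omega
  · exfalso; unfold TA at h2; unfold RA at h4; omega
  · exfalso; unfold TA at h4; unfold RA at h2; omega
  · rw [h1, h3]
  · exfalso; unfold RA at h2 h4; omega
  · exfalso; unfold TA at h4; unfold RA at h2; omega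
  · exfalso; unfold RA at h2 h4; omega
  · rw [← e] at h3; exact mul_right_cancel (h1.symm.trans h3)

theorem QA.symm {D p q : ℕ} (h : QA D p q) : QA D q p := by
  unfold QA at *; tauto

theorem QA.fw {D p q : ℕ} (h : QA D p q) {P : Prop}
    (H : ∀ a b : ℕ, ((p = a ∧ q = b) ∨ (p = b ∧ q = a)) → (TA D a b ∨ RA a b) → P) : P := by
  rcases h with h | h | h | h
  · exact H p q (Or.inl ⟨rfl, rfl⟩) (Or.inl h)
  · exact H q p (Or.inr ⟨rfl, rfl⟩) (Or.inl h)
  · exact H p q (Or.inl ⟨rfl, rfl⟩) (Or.inr h)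
  · exact H q p (Or.inr ⟨rfl, rfl⟩) (Or.inr h)

theorem TA.lad {D p q : ℕ} (h : 6 ≤ p) (h' : q = p + 2) : TA D p q := by
  unfold TA; iterate 11 right
  exact ⟨h, h'⟩

theorem qsm {D p q a b c : ℕ} (hD : 4 ≤ D) (h1 : QA D p a) (h2 : QA D p b)
    (h3 : QA D p c) (h : QA D p q → q = a ∨ q = b ∨ q = c) : QA D p q ↔ q = a ∨ q = b ∨ q = c :=
  ⟨h, by rintro (rfl | rfl | rfl) <;> assumption⟩

theorem q0 {D q : ℕ} (hD : 4 ≤ D) : QA D 0 q ↔ q = 1 ∨ q = 2 ∨ q = 3 :=
  qsm hD (by simp [QA, TA, RA]) (by simp [QA, TA, RA]) (by simp [QA, TA, RA])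
    (fun h => h.fw (by
      rintro a b hab ((h | h | h | h | h | h | h | h | h | h | h | h) | h) <;>
        (try unfold RA at h) <;> omega))

theorem q1 {D q : ℕ} (hD : 4 ≤ D) : QA D 1 q ↔ q = 0 ∨ q = 2 ∨ q = 4 :=
  qsm hD (by simp [QA, TA, RA]) (by simp [QA, TA, RA]) (by simp [QA, TA, RA])
    (fun h => h.fw (by
      rintro a b hab ((h | h | h | h | h | h | h | h | h | h | h | h) | h) <;>
        (try unfold RA at h) <;> omega))

theorem q2 {D q : ℕ} (hD : 4 ≤ D) : QA D 2 q ↔ q = 0 ∨ q = 1 ∨ q = 6 :=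
  qsm hD (by simp [QA, TA, RA]) (by simp [QA, TA, RA]) (by simp [QA, TA, RA])
    (fun h => h.fw (by
      rintro a b hab ((h | h | h | h | h | h | h | h | h | h | h | h) | h) <;>
        (try unfold RA at h) <;> omega))

theorem q3 {D q : ℕ} (hD : 4 ≤ D) : QA D 3 q ↔ q = 0 ∨ q = 4 ∨ q = 7 :=
  qsm hD (by simp [QA, TA, RA]) (by simp [QA, TA, RA]) (by simp [QA, TA, RA])
    (fun h => h.fw (by
      rintro a b hab ((h | h | h | h | h | h | h | h | h | h | h | h) | h) <;>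
        (try unfold RA at h) <;> omega))

theorem q4 {D q : ℕ} (hD : 4 ≤ D) : QA D 4 q ↔ q = 1 ∨ q = 3 ∨ q = 5 :=
  qsm hD (by simp [QA, TA, RA]) (by simp [QA, TA, RA]) (by simp [QA, TA, RA])
    (fun h => h.fw (by
      rintro a b hab ((h | h | h | h | h | h | h | h | h | h | h | h) | h) <;>
        (try unfold RA at h) <;> omega))

theorem q5 {D q : ℕ} (hD : 4 ≤ D) : QA D 5 q ↔ q = 4 ∨ q = 2 * D + 4 ∨ q = 2 * D + 5 :=
  qsm hD (by simp [QA, TA, RA]) (by simp [QA, TA, RA]) (by simp [QA, TA, RA])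
    (fun h => h.fw (by
      rintro a b hab ((h | h | h | h | h | h | h | h | h | h | h | h) | h) <;>
        (try unfold RA at h) <;> omega))

theorem q6 {D q : ℕ} (hD : 4 ≤ D) : QA D 6 q ↔ q = 2 ∨ q = 7 ∨ q = 8 :=
  qsm hD (by simp [QA, TA, RA]) (by simp [QA, TA, RA]) (by simp [QA, TA, RA])
    (fun h => h.fw (by
      rintro a b hab ((h | h | h | h | h | h | h | h | h | h | h | h) | h) <;>
        (try unfold RA at h) <;> omega))

theorem q7 {D q : ℕ} (hD : 4 ≤ D) : QA D 7 q ↔ q = 3 ∨ q = 6 ∨ q = 9 :=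
  qsm hD (by simp [QA, TA, RA]) (by simp [QA, TA, RA]) (by simp [QA, TA, RA])
    (fun h => h.fw (by
      rintro a b hab ((h | h | h | h | h | h | h | h | h | h | h | h) | h) <;>
        (try unfold RA at h) <;> omega))

theorem qe {D q : ℕ} (hD : 4 ≤ D) (hq : q < 2 * D + 6) :
    QA D (2 * D + 4) q ↔ q = 5 ∨ q = 2 * D + 2 ∨ q = 2 * D + 5 :=
  qsm hD (by simp [QA, TA, RA]) (Or.inr (Or.inl (TA.lad (by omega) rfl)))
    (Or.inr (Or.inr (Or.inl ⟨by omega, by omega, rfl⟩)))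
    (fun h => h.fw (by
      rintro a b hab ((h | h | h | h | h | h | h | h | h | h | h | h) | h) <;>
        (try unfold RA at h) <;> omega))

theorem qf {D q : ℕ} (hD : 4 ≤ D) (hq : q < 2 * D + 6) :
    QA D (2 * D + 5) q ↔ q = 5 ∨ q = 2 * D + 3 ∨ q = 2 * D + 4 :=
  qsm hD (by simp [QA, TA, RA]) (Or.inr (Or.inl (TA.lad (by omega) rfl)))
    (Or.inr (Or.inr (Or.inr ⟨by omega, by omega, rfl⟩)))
    (fun h => h.fw (by
      rintro a b hab ((h | h | h | h | h | h | h | h | h | h | h | h) | h) <;>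
        (try unfold RA at h) <;> omega))

theorem qv {D p q : ℕ} (hD : 4 ≤ D) (h8 : 8 ≤ p) (hp : p < 2 * D + 4) (h2 : p % 2 = 0) :
    QA D p q ↔ q = p + 2 ∨ q = p - 2 ∨ q = p + 1 :=
  qsm hD (Or.inl (TA.lad (by omega) rfl)) (Or.inr (Or.inl (TA.lad (by omega) (by omega))))
    (Or.inr (Or.inr (Or.inl ⟨by omega, by omega, rfl⟩)))
    (fun h => h.fw (by
      rintro a b hab ((h | h | h | h | h | h | h | h | h | h | h | h) | h) <;>
        (try unfold RA at h) <;> omega))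

theorem qw {D p q : ℕ} (hD : 4 ≤ D) (h8 : 8 ≤ p) (hp : p < 2 * D + 4) (h2 : p % 2 = 1) :
    QA D p q ↔ q = p + 2 ∨ q = p - 2 ∨ q = p - 1 :=
  qsm hD (Or.inl (TA.lad (by omega) rfl)) (Or.inr (Or.inl (TA.lad (by omega) (by omega))))
    (Or.inr (Or.inr (Or.inr ⟨by omega, by omega, by omega⟩)))
    (fun h => h.fw (by
      rintro a b hab ((h | h | h | h | h | h | h | h | h | h | h | h) | h) <;>
        (try unfold RA at h) <;> omega))

theorem pcases (D p : ℕ) (hp : p < 2 * D + 6) : p = 0 ∨ p = 1 ∨ p = 2 ∨ p = 3 ∨ p = 4 ∨ p = 5 ∨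
    p = 6 ∨ p = 7 ∨ p = 2 * D + 4 ∨ p = 2 * D + 5 ∨ (8 ≤ p ∧ p < 2 * D + 4 ∧ p % 2 = 0) ∨
    (8 ≤ p ∧ p < 2 * D + 4 ∧ p % 2 = 1) := by
  by_cases h : p ≤ 7
  · interval_cases p <;> simp
  · iterate 8 right
    omega

theorem three (hD : 4 ≤ D) (p : ℕ) (hp : p < 2 * D + 6) : ∃ a b c : ℕ, a < 2 * D + 6 ∧ b < 2 * D + 6 ∧
    c < 2 * D + 6 ∧ a ≠ b ∧ a ≠ c ∧ b ≠ c ∧
    ∀ q < 2 * D + 6, QA D p q ↔ (q = a ∨ q = b ∨ q = c) := by
  rcases pcases D p hp with rfl | rfl | rfl | rfl | rfl | rfl | rfl | rfl | rfl | rfl | h | h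
  · exact ⟨_, _, _, by omega, by omega, by omega, by omega, by omega, by omega, fun q _ => q0 hD⟩
  · exact ⟨_, _, _, by omega, by omega, by omega, by omega, by omega, by omega, fun q _ => q1 hD⟩
  · exact ⟨_, _, _, by omega, by omega, by omega, by omega, by omega, by omega, fun q _ => q2 hD⟩
  · exact ⟨_, _, _, by omega, by omega, by omega, by omega, by omega, by omega, fun q _ => q3 hD⟩
  · exact ⟨_, _, _, by omega, by omega, by omega, by omega, by omega, by omega, fun q _ => q4 hD⟩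
  · exact ⟨_, _, _, by omega, by omega, by omega, by omega, by omega, by omega, fun q _ => q5 hD⟩
  · exact ⟨_, _, _, by omega, by omega, by omega, by omega, by omega, by omega, fun q _ => q6 hD⟩
  · exact ⟨_, _, _, by omega, by omega, by omega, by omega, by omega, by omega, fun q _ => q7 hD⟩
  · exact ⟨_, _, _, by omega, by omega, by omega, by omega, by omega, by omega, fun q hq => qe hD hq⟩
  · exact ⟨_, _, _, by omega, by omega, by omega, by omega, by omega, by omega, fun q hq => qf hD hq⟩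
  · exact ⟨_, _, _, by omega, by omega, by omega, by omega, by omega, by omega,
      fun q _ => qv hD h.1 h.2.1 h.2.2⟩
  · exact ⟨_, _, _, by omega, by omega, by omega, by omega, by omega, by omega,
      fun q _ => qw hD h.1 h.2.1 h.2.2⟩

theorem cubic (x : G × Fin (2 * D + 6)) : ((X D hD s).neighborSet x).ncard = 3 := by
  obtain ⟨a, b, c, ha, hb, hc, hab, hac, hbc, H⟩ := three hD x.2 x.2.2
  obtain ⟨ga, ea⟩ := lift (hD := hD) (s := s) x ⟨a, ha⟩ ((H a ha).2 (Or.inl rfl))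
  obtain ⟨gb, eb⟩ := lift (hD := hD) (s := s) x ⟨b, hb⟩ ((H b hb).2 (Or.inr (Or.inl rfl)))
  obtain ⟨gc, ec⟩ := lift (hD := hD) (s := s) x ⟨c, hc⟩ ((H c hc).2 (Or.inr (Or.inr rfl)))
  rw [Set.ncard_eq_three]
  refine ⟨(ga, ⟨a, ha⟩), (gb, ⟨b, hb⟩), (gc, ⟨c, hc⟩), ?_, ?_, ?_, ?_⟩
  · intro h; exact hab (congrArg (fun t => (t.2 : ℕ)) h)
  · intro h; exact hac (congrArg (fun t => (t.2 : ℕ)) h)
  · intro h; exact hbc (congrArg (fun t => (t.2 : ℕ)) h)
  · ext y
    simp only [SimpleGraph.mem_neighborSet, Set.mem_insert_iff, Set.mem_singleton_iff]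
    constructor
    · intro h
      rcases (H y.2 y.2.2).1 (adj_q h) with e | e | e
      · exact Or.inl (uniq h ea (Fin.ext e))
      · exact Or.inr (Or.inl (uniq h eb (Fin.ext e)))
      · exact Or.inr (Or.inr (uniq h ec (Fin.ext e)))
    · rintro (rfl | rfl | rfl) <;> assumption

/-- invariant sets of positions -/
def Inv (D : ℕ) (hD : 4 ≤ D) (s : ℕ → G) (S : ℕ → Prop) : Prop :=
  ∀ (φ : X D hD s ≃g X D hD s) (x : G × Fin (2 * D + 6)), S x.2 → S (φ x).2

theorem Inv.not {S : ℕ → Prop} (h : Inv D hD s S) : Inv D hD s (fun p => ¬ S p) := by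
  intro φ x hx hx'
  have := h φ.symm (φ x) hx'
  simp only [RelIso.symm_apply_apply] at this
  exact hx this

theorem Inv.and {S T : ℕ → Prop} (h : Inv D hD s S) (h' : Inv D hD s T) :
    Inv D hD s (fun p => S p ∧ T p) := fun φ x hx => ⟨h φ x hx.1, h' φ x hx.2⟩

theorem Inv.congr {S T : ℕ → Prop} (h : Inv D hD s S) (e : ∀ p < 2 * D + 6, S p ↔ T p) :
    Inv D hD s T := fun φ x hx => (e _ (φ x).2.2).1 (h φ x ((e _ x.2.2).2 hx))

theorem Inv.nb {S : ℕ → Prop} (h : Inv D hD s S) :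
    Inv D hD s (fun p => ∃ q < 2 * D + 6, QA D q p ∧ S q) := by
  rintro φ x ⟨q, hq, h1, h2⟩
  obtain ⟨g, hg⟩ := lift (hD := hD) (s := s) x ⟨q, hq⟩ h1.symm
  exact ⟨(φ (g, ⟨q, hq⟩)).2, (φ (g, ⟨q, hq⟩)).2.2, (adj_q (φ.map_adj_iff.2 hg)).symm, h φ _ h2⟩

theorem Inv.nb1 {a : ℕ} (ha : a < 2 * D + 6) (h : Inv D hD s (fun p => p = a)) :
    Inv D hD s (fun p => QA D a p) :=
  h.nb.congr (fun p _ => ⟨fun ⟨q, _, h1, h2⟩ => h2 ▸ h1, fun h1 => ⟨a, ha, h1, rfl⟩⟩)

theorem tri_q (hD : 4 ≤ D) {p q r : ℕ} (hp : p < 2 * D + 6) (hq : q < 2 * D + 6)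
    (hr : r < 2 * D + 6) (h1 : QA D p q) (h2 : QA D p r) (h3 : QA D q r) :
    p ≤ 2 ∨ p = 5 ∨ 2 * D + 4 ≤ p := by
  have fin : ∀ {P : Prop}, (∀ a b : ℕ, ((q = a ∧ r = b) ∨ (q = b ∧ r = a)) →
      (TA D a b ∨ RA a b) → P) → P := fun H => h3.fw H
  rcases pcases D p hp with rfl | rfl | rfl | rfl | rfl | rfl | rfl | rfl | rfl | rfl | h | h
  · omega
  · omega
  · omega
  · rw [q3 hD] at h1 h2
    apply fin
    rintro a b hab ((h | h | h | h | h | h | h | h | h | h | h | h) | h) <;>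
        (try unfold RA at h) <;> omega
  · rw [q4 hD] at h1 h2
    apply fin
    rintro a b hab ((h | h | h | h | h | h | h | h | h | h | h | h) | h) <;>
        (try unfold RA at h) <;> omega
  · omega
  · rw [q6 hD] at h1 h2
    apply fin
    rintro a b hab ((h | h | h | h | h | h | h | h | h | h | h | h) | h) <;>
        (try unfold RA at h) <;> omega
  · rw [q7 hD] at h1 h2
    apply fin
    rintro a b hab ((h | h | h | h | h | h | h | h | h | h | h | h) | h) <;>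
        (try unfold RA at h) <;> omega
  · omega
  · omega
  · rw [qv hD h.1 h.2.1 h.2.2] at h1 h2
    apply fin
    rintro a b hab ((h | h | h | h | h | h | h | h | h | h | h | h) | h) <;>
        (try unfold RA at h) <;> omega
  · rw [qw hD h.1 h.2.1 h.2.2] at h1 h2
    apply fin
    rintro a b hab ((h | h | h | h | h | h | h | h | h | h | h | h) | h) <;>
        (try unfold RA at h) <;> omega

theorem inv_tri (hs : s (2 * D + 4) = 1) :
    Inv D hD s (fun p => p ≤ 2 ∨ p = 5 ∨ 2 * D + 4 ≤ p) := by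
  intro φ x hx
  have hD' := hD
  have key : ∃ y z, (X D hD s).Adj x y ∧ (X D hD s).Adj x z ∧ (X D hD s).Adj y z := by
    obtain ⟨g, ⟨p, hp⟩⟩ := x
    have T : ∀ (a b : ℕ) (ha : a < 2 * D + 6) (hb : b < 2 * D + 6), TA D a b ∨ TA D b a →
        (X D hD s).Adj (g, ⟨a, ha⟩) (g, ⟨b, hb⟩) := fun a b ha hb h => Or.inl ⟨rfl, h⟩
    have R : (X D hD s).Adj (g, ⟨2 * D + 4, by omega⟩) (g, ⟨2 * D + 5, by omega⟩) :=
      Or.inr (Or.inl ⟨(⟨by omega, by omega, rfl⟩ : RA (2 * D + 4) (2 * D + 5)), by simp [hs]⟩)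
    simp only at hx
    have : p = 0 ∨ p = 1 ∨ p = 2 ∨ p = 5 ∨ p = 2 * D + 4 ∨ p = 2 * D + 5 := by omega
    rcases this with rfl | rfl | rfl | rfl | rfl | rfl
    · exact ⟨_, _, T 0 1 _ (by omega) (by simp [TA]), T 0 2 _ (by omega) (by simp [TA]),
        T 1 2 _ _ (by simp [TA])⟩
    · exact ⟨_, _, T 1 0 _ (by omega) (by simp [TA]), T 1 2 _ (by omega) (by simp [TA]),
        T 0 2 _ _ (by simp [TA])⟩
    · exact ⟨_, _, T 2 0 _ (by omega) (by simp [TA]), T 2 1 _ (by omega) (by simp [TA]),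
        T 0 1 _ _ (by simp [TA])⟩
    · exact ⟨_, _, T 5 (2 * D + 4) _ (by omega) (by simp [TA]),
        T 5 (2 * D + 5) _ (by omega) (by simp [TA]), R⟩
    · exact ⟨_, _, R, T _ 5 _ (by omega) (by simp [TA]), T _ 5 _ _ (by simp [TA])⟩
    · exact ⟨_, _, R.symm, T _ 5 _ (by omega) (by simp [TA]), T _ 5 _ _ (by simp [TA])⟩
  obtain ⟨y, z, h1, h2, h3⟩ := key
  exact tri_q hD (φ x).2.2 (φ y).2.2 (φ z).2.2 (adj_q (φ.map_adj_iff.2 h1))
    (adj_q (φ.map_adj_iff.2 h2)) (adj_q (φ.map_adj_iff.2 h3))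

theorem inv_all (hs : s (2 * D + 4) = 1) (a : ℕ) (ha : a < 2 * D + 6) :
    Inv D hD s (fun p => p = a) := by
  have hD' := hD
  have T := inv_tri (hD := hD) hs
  have L1 : Inv D hD s (fun p => p = 3 ∨ p = 4 ∨ p = 6 ∨ p = 2 * D + 2 ∨ p = 2 * D + 3) := by
    refine (T.nb.and T.not).congr (fun p hp => ⟨?_, ?_⟩)
    · rintro ⟨⟨q, hq, h1, h2⟩, h3⟩
      have : q = 0 ∨ q = 1 ∨ q = 2 ∨ q = 5 ∨ q = 2 * D + 4 ∨ q = 2 * D + 5 := by omega
      rcases this with rfl | rfl | rfl | rfl | rfl | rfl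
      · rw [q0 hD] at h1; omega
      · rw [q1 hD] at h1; omega
      · rw [q2 hD] at h1; omega
      · rw [q5 hD] at h1; omega
      · rw [qe hD hp] at h1; omega
      · rw [qf hD hp] at h1; omega
    · intro h
      refine ⟨?_, by omega⟩
      rcases h with rfl | rfl | rfl | rfl | rfl
      · exact ⟨0, by omega, by rw [q0 hD]; omega, by omega⟩
      · exact ⟨1, by omega, by rw [q1 hD]; omega, by omega⟩
      · exact ⟨2, by omega, by rw [q2 hD]; omega, by omega⟩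
      · exact ⟨2 * D + 4, by omega, by rw [qe hD hp]; omega, by omega⟩
      · exact ⟨2 * D + 5, by omega, by rw [qf hD hp]; omega, by omega⟩
  have I6 : Inv D hD s (fun p => p = 6) := by
    refine (L1.and L1.nb.not).congr (fun p hp => ⟨?_, ?_⟩)
    · rintro ⟨h, h'⟩
      by_contra h6
      apply h'
      rcases h with rfl | rfl | rfl | rfl | rfl
      · exact ⟨4, by omega, by rw [q4 hD]; omega, by omega⟩
      · exact ⟨3, by omega, by rw [q3 hD]; omega, by omega⟩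
      · exact absurd rfl h6
      · exact ⟨2 * D + 3, by omega, by rw [qw hD (by omega) (by omega) (by omega)]; omega, by omega⟩
      · exact ⟨2 * D + 2, by omega, by rw [qv hD (by omega) (by omega) (by omega)]; omega, by omega⟩
    · rintro rfl
      refine ⟨by omega, ?_⟩
      rintro ⟨q, hq, h1, h2⟩
      have h3 := h1.symm
      rw [q6 hD] at h3; omega
  have I2 : Inv D hD s (fun p => p = 2) :=
    ((I6.nb1 (by omega)).and T).congr (fun p hp => by rw [q6 hD]; omega)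
  have I01 : Inv D hD s (fun p => p = 0 ∨ p = 1) :=
    ((I2.nb1 (by omega)).and I6.not).congr (fun p hp => by rw [q2 hD]; omega)
  have I34 : Inv D hD s (fun p => p = 3 ∨ p = 4) := by
    refine (I01.nb.and T.not).congr (fun p hp => ⟨?_, ?_⟩)
    · rintro ⟨⟨q, hq, h1, rfl | rfl⟩, h3⟩
      · rw [q0 hD] at h1; omega
      · rw [q1 hD] at h1; omega
    · intro h
      refine ⟨?_, by omega⟩
      rcases h with rfl | rfl
      · exact ⟨0, by omega, by rw [q0 hD]; omega, by omega⟩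
      · exact ⟨1, by omega, by rw [q1 hD]; omega, by omega⟩
  have I7 : Inv D hD s (fun p => p = 7) := by
    refine (I34.nb.and (I6.nb1 (by omega))).congr (fun p hp => ⟨?_, ?_⟩)
    · rintro ⟨⟨q, hq, h1, rfl | rfl⟩, h3⟩
      · rw [q3 hD] at h1; rw [q6 hD] at h3; omega
      · rw [q4 hD] at h1; rw [q6 hD] at h3; omega
    · rintro rfl
      exact ⟨⟨3, by omega, by rw [q3 hD]; omega, by omega⟩, by rw [q6 hD]; omega⟩
  have I3 : Inv D hD s (fun p => p = 3) :=
    ((I7.nb1 (by omega)).and I34).congr (fun p hp => by rw [q7 hD]; omega)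
  have I4 : Inv D hD s (fun p => p = 4) := (I34.and I3.not).congr (fun p hp => by omega)
  have I0 : Inv D hD s (fun p => p = 0) :=
    ((I3.nb1 (by omega)).and T).congr (fun p hp => by rw [q3 hD]; omega)
  have I1 : Inv D hD s (fun p => p = 1) := (I01.and I0.not).congr (fun p hp => by omega)
  have I5 : Inv D hD s (fun p => p = 5) :=
    (((I4.nb1 (by omega)).and T).and I1.not).congr (fun p hp => by rw [q4 hD]; omega)
  have I8 : Inv D hD s (fun p => p = 8) :=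
    (((I6.nb1 (by omega)).and I2.not).and I7.not).congr (fun p hp => by rw [q6 hD]; omega)
  have I9 : Inv D hD s (fun p => p = 9) :=
    (((I7.nb1 (by omega)).and I3.not).and I6.not).congr (fun p hp => by rw [q7 hD]; omega)
  have lad : ∀ k, 2 * k + 9 < 2 * D + 6 → (Inv D hD s (fun p => p = 2 * k + 6) ∧
      Inv D hD s (fun p => p = 2 * k + 7)) ∧ (Inv D hD s (fun p => p = 2 * k + 8) ∧
      Inv D hD s (fun p => p = 2 * k + 9)) := by
    intro k
    induction k with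
    | zero => intro _; exact ⟨⟨I6, I7⟩, I8, I9⟩
    | succ k ih =>
      intro hk
      obtain ⟨⟨J6, J7⟩, J8, J9⟩ := ih (by omega)
      refine ⟨⟨J8.congr (fun p _ => by omega), J9.congr (fun p _ => by omega)⟩, ?_, ?_⟩
      · exact (((J8.nb1 (by omega)).and J6.not).and J9.not).congr
          (fun p hp => by rw [qv hD (by omega) (by omega) (by omega)]; omega)
      · exact (((J9.nb1 (by omega)).and J7.not).and J8.not).congr
          (fun p hp => by rw [qw hD (by omega) (by omega) (by omega)]; omega)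
  by_cases h : a ≤ 7
  · interval_cases a <;> assumption
  · obtain ⟨-, J8, J9⟩ := lad ((a - 8) / 2) (by omega)
    by_cases h2 : a % 2 = 0
    · exact J8.congr (fun p _ => by omega)
    · exact J9.congr (fun p _ => by omega)

/-- left multiplication -/
def lm (D : ℕ) (hD : 4 ≤ D) (s : ℕ → G) (a : G) : X D hD s ≃g X D hD s where
  toEquiv := (Equiv.mulLeft a).prodCongr (Equiv.refl _)
  map_rel_iff' := by
    intro x y
    show ((a * y.1 = a * x.1 ∧ _) ∨ (_ ∧ a * y.1 = a * x.1 * s x.2) ∨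
      (_ ∧ a * x.1 = a * y.1 * s y.2)) ↔ _
    simp only [mul_assoc, mul_right_inj]
    rfl

/-- left multiplication as a homomorphism -/
def lmh (D : ℕ) (hD : 4 ≤ D) (s : ℕ → G) : G →* (X D hD s ≃g X D hD s) :=
  MonoidHom.mk' (lm D hD s) (fun a b => by
    ext x
    · show a * b * x.1 = a * (b * x.1)
      rw [mul_assoc]
    · rfl)

theorem lmh_bij (hs : s (2 * D + 4) = 1)
    (hg : Subgroup.closure {g | ∃ p, 6 ≤ p ∧ p % 2 = 0 ∧ p < 2 * D + 6 ∧ s p = g} = ⊤) :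
    Function.Bijective (lmh D hD s) := by
  have hD' := hD
  constructor
  · intro a b h
    have := congrArg (fun φ : X D hD s ≃g X D hD s => (φ (1, ⟨0, by omega⟩)).1) h
    change a * 1 = b * 1 at this
    simpa using this
  · intro φ
    have pos : ∀ x, (φ x).2 = x.2 := fun x => Fin.ext (inv_all hs x.2 x.2.2 φ x rfl)
    have step : ∀ (g : G) (a b : ℕ) (ha : a < 2 * D + 6) (hb : b < 2 * D + 6), TA D a b →
        (φ (g, ⟨b, hb⟩)).1 = (φ (g, ⟨a, ha⟩)).1 := by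
      intro g a b ha hb h
      have h1 : (X D hD s).Adj (g, ⟨a, ha⟩) (g, ⟨b, hb⟩) := Or.inl ⟨rfl, Or.inl h⟩
      rcases φ.map_adj_iff.2 h1 with ⟨h2, _⟩ | ⟨h2, _⟩ | ⟨h2, _⟩
      · exact h2
      · rw [pos, pos] at h2; exfalso; unfold TA at h; unfold RA at h2; simp only at h2; omega
      · rw [pos, pos] at h2; exfalso; unfold TA at h; unfold RA at h2; simp only at h2; omega
    have z : 0 < 2 * D + 6 := by omega
    have all : ∀ (g : G) (a : ℕ) (ha : a < 2 * D + 6), (φ (g, ⟨a, ha⟩)).1 = (φ (g, ⟨0, z⟩)).1 := by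
      intro g a
      induction a using Nat.strong_induction_on with
      | _ a ih =>
        intro ha
        by_cases h0 : a = 0
        · subst h0; rfl
        have : ∃ b < a, TA D b a := by
          by_cases h : a ≤ 7
          · interval_cases a
            · exact absurd rfl h0
            · exact ⟨0, by omega, by simp [TA]⟩
            · exact ⟨0, by omega, by simp [TA]⟩
            · exact ⟨0, by omega, by simp [TA]⟩
            · exact ⟨1, by omega, by simp [TA]⟩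
            · exact ⟨4, by omega, by simp [TA]⟩
            · exact ⟨2, by omega, by simp [TA]⟩
            · exact ⟨3, by omega, by simp [TA]⟩
          · exact ⟨a - 2, by omega, TA.lad (by omega) (by omega)⟩
        obtain ⟨b, hb, h⟩ := this
        rw [step g b a (by omega) ha h, ih b hb]
    have rung : ∀ (g : G) (p : ℕ), 6 ≤ p → p % 2 = 0 → p < 2 * D + 6 →
        (φ (g * s p, ⟨0, z⟩)).1 = (φ (g, ⟨0, z⟩)).1 * s p := by
      intro g p h1 h2 h3
      have h4 : (X D hD s).Adj (g, ⟨p, h3⟩) (g * s p, ⟨p + 1, by omega⟩) :=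
        Or.inr (Or.inl ⟨⟨h1, h2, rfl⟩, rfl⟩)
      rcases φ.map_adj_iff.2 h4 with ⟨_, h5⟩ | ⟨_, h5⟩ | ⟨h5, _⟩
      · rw [pos, pos] at h5; exfalso; unfold TA at h5; simp only at h5; omega
      · rw [pos, all, all g p h3] at h5; exact h5
      · rw [pos, pos] at h5; exfalso; unfold RA at h5; simp only at h5; omega
    have mul : ∀ t : G, ∀ g : G, (φ (g * t, ⟨0, z⟩)).1 = (φ (g, ⟨0, z⟩)).1 * t := by
      intro t
      have ht : t ∈ Subgroup.closure {g | ∃ p, 6 ≤ p ∧ p % 2 = 0 ∧ p < 2 * D + 6 ∧ s p = g} := by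
        rw [hg]; trivial
      induction ht using Subgroup.closure_induction with
      | mem t ht => obtain ⟨p, h1, h2, h3, rfl⟩ := ht; exact fun g => rung g p h1 h2 h3
      | one => intro g; simp
      | mul a b _ _ ha hb => intro g; rw [← mul_assoc, hb, ha, mul_assoc]
      | inv a _ ha =>
        intro g
        have := ha (g * a⁻¹)
        rw [inv_mul_cancel_right] at this
        rw [this, mul_inv_cancel_right]
    refine ⟨(φ (1, ⟨0, z⟩)).1, ?_⟩
    apply RelIso.ext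
    rintro ⟨g, ⟨a, ha⟩⟩
    refine Prod.ext ?_ (pos (g, ⟨a, ha⟩)).symm
    show (φ (1, ⟨0, z⟩)).1 * g = _
    rw [← mul, one_mul]
    exact (all g a ha).symm

theorem bound (G : Type) [Group G] [Finite G] (hd : 3 ≤ Group.rank G) :
    ∃ (V : Type) (_ : Finite V) (Y : SimpleGraph V), (∀ v, (Y.neighborSet v).ncard = 3) ∧
      Nonempty ((Y ≃g Y) ≃* G) ∧ Nat.card V = Nat.card G * (2 * Group.rank G + 8) := by
  obtain ⟨S, hS, hc⟩ := Group.rank_spec G
  set d := Group.rank G with hdd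
  let e : Fin d ≃ S := (S.equivFinOfCardEq hS).symm
  let s : ℕ → G := fun p => if h : (p - 6) / 2 < d then (e ⟨_, h⟩ : G) else 1
  have hD : 4 ≤ d + 1 := by omega
  have hs : s (2 * (d + 1) + 4) = 1 := by
    simp only [s]; rw [dif_neg (by omega)]
  have hg : Subgroup.closure {g | ∃ p, 6 ≤ p ∧ p % 2 = 0 ∧ p < 2 * (d + 1) + 6 ∧ s p = g} = ⊤ := by
    rw [eq_top_iff, ← hc]
    apply Subgroup.closure_mono
    intro g hg
    obtain ⟨⟨i, hi⟩, h⟩ := e.surjective ⟨g, hg⟩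
    refine ⟨2 * i + 6, by omega, by omega, by omega, ?_⟩
    have : (2 * i + 6 - 6) / 2 = i := by omega
    simp only [s, this]
    rw [dif_pos hi, h]
  refine ⟨G × Fin (2 * (d + 1) + 6), inferInstance, X (d + 1) hD s, cubic,
    ⟨(MulEquiv.ofBijective _ (lmh_bij hs hg)).symm⟩, ?_⟩
  rw [Nat.card_prod, Nat.card_fin]
  ring

theorem result : ∀ ε : ℝ, 0 < ε → ∃ D : ℕ, ∀ (G : Type) [Group G] [Finite G], D < Group.rank G →
    ∃ (V : Type) (_ : Finite V) (Y : SimpleGraph V), (∀ v, (Y.neighborSet v).ncard = 3) ∧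
      Nonempty ((Y ≃g Y) ≃* G) ∧
      (Nat.card V : ℝ) < (2 + ε) * Nat.card G * Group.rank G := by
  intro ε hε
  obtain ⟨D, hD⟩ := exists_nat_gt (8 / ε)
  refine ⟨D + 2, fun G _ _ hG => ?_⟩
  obtain ⟨V, hV, Y, h1, h2, h3⟩ := bound G (by omega)
  refine ⟨V, hV, Y, h1, h2, ?_⟩
  rw [h3]
  push_cast
  have hn : (0 : ℝ) < Nat.card G := by exact_mod_cast Nat.card_pos
  have hr : (D : ℝ) < Group.rank G := by exact_mod_cast (by omega : D < Group.rank G)
  have h8 : 8 < ε * Group.rank G := by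
    rw [div_lt_iff₀ hε] at hD
    nlinarith
  nlinarith

end Pool.Agent.Results.MP_b549f0_co.Cubic
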